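import Pool.Agent.MP_e7e597_an.H71.Main

/-! Sharp ellipticity threshold for energies `W (‖dev log U‖ ^ 2)` in dimension three. -/

open Pool.Agent.MP_e7e597_an.H71

theorem Pool.Agent.Results.MP_e7e597_an.SharpThreshold.result :
    ∃ a : ℝ, 0 < a ∧ 3 * a * Real.tanh (a / 2) ^ 3 = 2 + 6 * Real.tanh (a / 2) ^ 2 ∧
      18.89 < 2 * a ^ 2 ∧ 2 * a ^ 2 < 18.9 ∧
      (∀ c : ℝ, c < 2 * a ^ 2 → ∃ k0 : ℝ, ∀ k : ℝ, k0 ≤ k → ∀ F : Matrix (Fin 3) (Fin 3) ℝ,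
        0 < F.det → K F ≤ c → EllipticAt (fun s => Real.exp (k * s)) F) ∧
      (∀ b : ℝ, a ≤ b → K (Matrix.diagonal ![1, Real.exp (-b), Real.exp b]) = 2 * b ^ 2 ∧
        ∀ W : ℝ → ℝ, ContDiffOn ℝ 2 W (Set.Ici 0) →
          ¬EllipticAt W (Matrix.diagonal ![1, Real.exp (-b), Real.exp b])) := by
  obtain ⟨a, h1, h2, h3⟩ := exists_root
  have h0 : 0 < a := by linarith
  exact ⟨a, h0, h3, by nlinarith, by nlinarith, fun c hc => part_A h0 (by linarith) h3 hc,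
    fun b hb => part_B h0 h3 hb⟩
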